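import Mathlib
import Pool.Agent.MP_8a557e_co.H71.Construct
import Pool.Agent.MP_8a557e_co.H71.Growth

namespace Pool.Agent.Results.MP_8a557e_co.NoPolyCertificate

/-- `f` is a weighted threshold function. -/
def IsWeighted {n : ℕ} (f : (Fin n → Bool) → Bool) : Prop :=
  ∃ (w : Fin n → ℝ) (q : ℝ), ∀ x, f x = true ↔ q ≤ ∑ i, w i * (if x i = true then 1 else 0)

/-- `f` is `k`-summable: some `j` true vectors and `j` false vectors, `1 ≤ j ≤ k`, repetitions
allowed, have the same sum in `ℤ^n`. -/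
def IsSummable {n : ℕ} (f : (Fin n → Bool) → Bool) (k : ℝ) : Prop :=
  ∃ j : ℕ, 1 ≤ j ∧ (j : ℝ) ≤ k ∧ ∃ x y : Fin j → Fin n → Bool,
    (∀ t, f (x t) = true) ∧ (∀ t, f (y t) = false) ∧
    ∀ i, ∑ t, (if x t i = true then (1 : ℤ) else 0) = ∑ t, (if y t i = true then (1 : ℤ) else 0)

/-- For every real polynomial `p` and all large `n` there is a monotone Boolean function on `n`
variables that is not weighted threshold and is `p(n)`-asummable. -/
theorem result : ∀ p : Polynomial ℝ, ∀ᶠ n : ℕ in Filter.atTop,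
    ∃ f : (Fin n → Bool) → Bool, Monotone f ∧ ¬ IsWeighted f ∧ ¬ IsSummable f (p.eval (n : ℝ)) := by
  intro p
  filter_upwards [Pool.Agent.MP_8a557e_co.H71.poly_le_fib p, Filter.eventually_ge_atTop 16]
    with n hn hn16
  obtain ⟨f, h1, h2, h3⟩ := Pool.Agent.MP_8a557e_co.H71.exists_good_fin n hn16
  refine ⟨f, h1, h2, ?_⟩
  rintro ⟨j, hj1, hj2, x, y, hx, hy, hxy⟩
  refine h3 j hj1 (by exact_mod_cast hj2.trans hn) x y hx hy (fun i => ?_)
  have := congrArg (fun z : ℤ => (z : ℝ)) (hxy i)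
  simpa [Pool.Agent.MP_8a557e_co.H71.ind] using this

end Pool.Agent.Results.MP_8a557e_co.NoPolyCertificate
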